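import Pool.Agent.X225.Cr.Comm

/-!
# An irreducible split crystallographic group that is not homogeneous

The group acts on `ℝ⁸ = ℂ⁴`.  Its translation lattice is `ℤ[ω]⁴ = ℤ[ω] ⊗ ℤ[ζ₈] = ℤ[ζ₂₄]`, its point group
consists of the isometries of the lattice that commute with `√2` and `√-3` or anticommute with both.
-/

namespace Pool.Agent.Results.MP_881be3_lc.SplitCounterexample

open FirstOrder FirstOrder.Language ComplexConjugate
open Pool.Agent.X225.Cr hiding V

/-! ### Definitions -/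

section Defs

variable {V : Type} [NormedAddCommGroup V]

/-- `G` is discrete: for all `r` only finitely many elements of `G` move the origin by at most `r`.
(The isometries of `ℝⁿ` that move the origin by at most `r` form a compact set.) -/
def IsDiscrete (G : Subgroup (V ≃ᵢ V)) : Prop :=
  ∀ r : ℝ, {g : V ≃ᵢ V | g ∈ G ∧ ‖g 0‖ ≤ r}.Finite

/-- `G` is cocompact: the translates of a compact set cover the space -/
def IsCocompact (G : Subgroup (V ≃ᵢ V)) : Prop :=
  ∃ C : Set V, IsCompact C ∧ ∀ x, ∃ g ∈ G, g x ∈ C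

/-- the subgroup `T` of the translations in `G` -/
def translations (G : Subgroup (V ≃ᵢ V)) : Subgroup (V ≃ᵢ V) where
  carrier := {g | g ∈ G ∧ ∃ v : V, ∀ x, g x = x + v}
  mul_mem' := by
    rintro g h ⟨hg, v, hv⟩ ⟨hh, w, hw⟩
    refine ⟨mul_mem hg hh, w + v, fun x => ?_⟩
    change g (h x) = _
    rw [hv, hw, add_assoc]
  one_mem' := ⟨one_mem G, 0, fun x => (add_zero x).symm⟩
  inv_mem' := by
    rintro g ⟨hg, v, hv⟩
    refine ⟨inv_mem hg, -v, fun x => ?_⟩
    apply g.injective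
    rw [hv (x + -v), show g (g⁻¹ x) = x from g.apply_symm_apply x, neg_add_cancel_right]

/-- `G` is split: the translation subgroup `T` has a complement in `G` -/
def IsSplit (G : Subgroup (V ≃ᵢ V)) : Prop :=
  ∃ H : Subgroup (V ≃ᵢ V), H ≤ G ∧ H ⊓ translations G = ⊥ ∧
    ∀ g ∈ G, ∃ t ∈ translations G, ∃ h ∈ H, g = t * h

/-- `G` is irreducible: a subgroup `N` of `T` that is invariant under conjugation by `G` is trivial or
spans `ℚ ⊗ T` over `ℚ`, i.e. contains a nontrivial power of every element of `T` -/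
def IsIrreducible (G : Subgroup (V ≃ᵢ V)) : Prop :=
  ∀ N : Subgroup (V ≃ᵢ V), N ≤ translations G → (∀ g ∈ G, ∀ n ∈ N, g * n * g⁻¹ ∈ N) →
    N = ⊥ ∨ ∀ t ∈ translations G, ∃ m : ℕ, m ≠ 0 ∧ t ^ m ∈ N

end Defs

/-- the group `G` is homogeneous: tuples with the same type are conjugate under `Aut(G)` -/
def IsHomogeneous (G : Type) [Group G] : Prop :=
  ∀ k : ℕ, 1 ≤ k → ∀ u v : Fin k → G,
    (∀ φ : Lgrp.Formula (Fin k), φ.Realize u ↔ φ.Realize v) → ∃ σ : G ≃* G, ∀ i, σ (u i) = v i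

/-! ### The group on `ℂ⁴` -/

/-- the affine map -/
noncomputable def aff (x : Aff lat Gam) : Pool.Agent.X225.Cr.V ≃ᵢ Pool.Agent.X225.Cr.V :=
  (x.g : Pool.Agent.X225.Cr.V ≃ₗᵢ[ℝ] Pool.Agent.X225.Cr.V).toIsometryEquiv.trans
    (IsometryEquiv.addRight (x.t : Pool.Agent.X225.Cr.V))

theorem aff_apply (x : Aff lat Gam) (y : Pool.Agent.X225.Cr.V) :
    aff x y = (x.g : Pool.Agent.X225.Cr.V ≃ₗᵢ[ℝ] Pool.Agent.X225.Cr.V) y + x.t := rfl

/-- the action of the abstract group -/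
noncomputable def affHom : Aff lat Gam →* (Pool.Agent.X225.Cr.V ≃ᵢ Pool.Agent.X225.Cr.V) where
  toFun := aff
  map_one' := by
    ext1 y
    change (1 : Gam).1 y + ((0 : lat) : Pool.Agent.X225.Cr.V) = y
    simp
  map_mul' x y := by
    ext1 z
    change aff (x * y) z = aff x (aff y z)
    rw [aff_apply, aff_apply, aff_apply, map_add, mul_t, mul_g]
    change (x.g : Pool.Agent.X225.Cr.V ≃ₗᵢ[ℝ] Pool.Agent.X225.Cr.V)
      ((y.g : Pool.Agent.X225.Cr.V ≃ₗᵢ[ℝ] Pool.Agent.X225.Cr.V) z) +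
      ((x.t : Pool.Agent.X225.Cr.V) + (x.g : Pool.Agent.X225.Cr.V ≃ₗᵢ[ℝ] Pool.Agent.X225.Cr.V)
        (y.t : Pool.Agent.X225.Cr.V)) = _
    abel

theorem affHom_apply (x : Aff lat Gam) (y : Pool.Agent.X225.Cr.V) :
    affHom x y = (x.g : Pool.Agent.X225.Cr.V ≃ₗᵢ[ℝ] Pool.Agent.X225.Cr.V) y + x.t := rfl

theorem affHom_zero (x : Aff lat Gam) : affHom x 0 = x.t := by
  rw [affHom_apply, map_zero, zero_add]

theorem affHom_injective : Function.Injective affHom := by
  intro x y h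
  have h1 : (x.t : Pool.Agent.X225.Cr.V) = y.t := by
    rw [← affHom_zero, ← affHom_zero, h]
  ext1
  · exact Subtype.ext h1
  · apply Subtype.ext
    ext1 z
    have h2 : affHom x z = affHom y z := by rw [h]
    rw [affHom_apply, affHom_apply, h1] at h2
    exact add_right_cancel h2

/-- the group -/
noncomputable def grp : Subgroup (Pool.Agent.X225.Cr.V ≃ᵢ Pool.Agent.X225.Cr.V) := affHom.range

theorem discrete_grp : IsDiscrete grp := by
  classical
  intro r
  have h1 := finite_lat r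
  have h2 : (Set.univ : Set Gam).Finite := Set.finite_univ
  refine ((h1.prod h2).image fun p : Pool.Agent.X225.Cr.V × Gam =>
    if h : p.1 ∈ lat then affHom ⟨⟨p.1, h⟩, p.2⟩ else 1).subset ?_
  rintro _ ⟨⟨x, rfl⟩, hx⟩
  rw [affHom_zero] at hx
  refine ⟨((x.t : Pool.Agent.X225.Cr.V), x.g), ⟨⟨x.t.2, hx⟩, trivial⟩, ?_⟩
  have h3 : (x.t : Pool.Agent.X225.Cr.V) ∈ lat := x.t.2
  simp only [h3, dite_true]

theorem cocompact_grp : IsCocompact grp := by
  refine ⟨Metric.closedBall 0 4, isCompact_closedBall 0 4, fun x => ?_⟩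
  obtain ⟨f, hf, hxf⟩ := exists_near_lat x
  refine ⟨affHom ⟨⟨-f, neg_mem hf⟩, 1⟩, ⟨_, rfl⟩, ?_⟩
  rw [mem_closedBall_zero_iff, affHom_apply]
  change ‖x + -f‖ ≤ 4
  rwa [← sub_eq_add_neg]

/-- the translations -/
theorem mem_translations {g : Pool.Agent.X225.Cr.V ≃ᵢ Pool.Agent.X225.Cr.V} :
    g ∈ translations grp ↔ ∃ x : lat, g = affHom ⟨x, 1⟩ := by
  constructor
  · rintro ⟨⟨x, rfl⟩, v, hv⟩
    refine ⟨x.t, ?_⟩
    congr 1
    ext1
    · rfl
    · apply Subtype.ext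
      ext1 z
      have h0 := hv 0
      have hz := hv z
      rw [affHom_zero, zero_add] at h0
      rw [affHom_apply, h0] at hz
      exact add_right_cancel hz
  · rintro ⟨x, rfl⟩
    exact ⟨⟨_, rfl⟩, x, fun y => rfl⟩

theorem split_grp : IsSplit grp := by
  let i : Gam →* Aff lat Gam :=
    { toFun := fun γ => ⟨0, γ⟩, map_one' := rfl,
      map_mul' := fun γ δ => by ext1 <;> simp }
  refine ⟨(affHom.comp i).range, ?_, ?_, ?_⟩
  · rintro _ ⟨γ, rfl⟩
    exact ⟨_, rfl⟩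
  · rw [eq_bot_iff]
    rintro g ⟨⟨γ, rfl⟩, h⟩
    obtain ⟨x, hx⟩ := mem_translations.1 h
    have h1 : (⟨0, γ⟩ : Aff lat Gam) = ⟨x, 1⟩ := affHom_injective hx
    have h2 : γ = 1 := congrArg Aff.g h1
    subst h2
    exact affHom.map_one
  · rintro _ ⟨x, rfl⟩
    refine ⟨affHom ⟨x.t, 1⟩, mem_translations.2 ⟨_, rfl⟩, _, ⟨x.g, rfl⟩, ?_⟩
    change affHom x = affHom ⟨x.t, 1⟩ * affHom ⟨0, x.g⟩
    rw [← map_mul]
    congr 1
    ext1 <;> simp

/-! ### Irreducibility -/

theorem sqrt_two_int {a c : ℤ} (h : (c : ℝ) = √2 * a) : a = 0 ∧ c = 0 := by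
  have ha : a = 0 := by
    by_contra hne
    apply irrational_sqrt_two
    have : (a : ℝ) ≠ 0 := by exact_mod_cast hne
    refine ⟨(c : ℚ) / a, ?_⟩
    push_cast
    rw [h]
    field_simp
  refine ⟨ha, ?_⟩
  rw [ha] at h
  simpa using h

theorem eis_coeff {a b : ℝ} (h : (a : ℂ) + b * om = 0) : a = 0 ∧ b = 0 := by
  have h3 := sqrt3_gt
  have him := congrArg Complex.im h
  have hre := congrArg Complex.re h
  have hb : b = 0 := by
    simp [om] at him
    exact him
  subst hb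
  refine ⟨?_, rfl⟩
  simpa [om] using hre

theorem two_sq {z w : ℂ} (hz : IsEis z) (hw : IsEis w) (h : 2 * (z * z) = w * w) :
    z = 0 ∧ w = 0 := by
  obtain ⟨a, b, rfl⟩ := hz
  obtain ⟨c, d, rfl⟩ := hw
  have hr : ((√2 : ℝ) : ℂ) * ((√2 : ℝ) : ℂ) = 2 := by
    rw [← Complex.ofReal_mul, Real.mul_self_sqrt (by norm_num)]
    norm_num
  have h1 : ((c : ℂ) + d * om - (√2 : ℝ) * (a + b * om)) *
      ((c : ℂ) + d * om + (√2 : ℝ) * (a + b * om)) = 0 := by
    linear_combination -h - (a + b * om) * (a + b * om) * hr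
  rcases mul_eq_zero.1 h1 with h2 | h2
  · have h3 : (((c : ℝ) - √2 * a : ℝ) : ℂ) + (((d : ℝ) - √2 * b : ℝ) : ℂ) * om = 0 := by
      rw [← h2]; push_cast; ring
    obtain ⟨h4, h5⟩ := eis_coeff h3
    obtain ⟨h6, h7⟩ := sqrt_two_int (sub_eq_zero.1 h4)
    obtain ⟨h8, h9⟩ := sqrt_two_int (sub_eq_zero.1 h5)
    subst h6 h7 h8 h9
    simp
  · have h3 : (((c : ℝ) + √2 * a : ℝ) : ℂ) + (((d : ℝ) + √2 * b : ℝ) : ℂ) * om = 0 := by
      rw [← h2]; push_cast; ring
    obtain ⟨h4, h5⟩ := eis_coeff h3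
    obtain ⟨h6, h7⟩ := sqrt_two_int (a := -a) (by push_cast; linarith : (c : ℝ) = √2 * (-a : ℤ))
    obtain ⟨h8, h9⟩ := sqrt_two_int (a := -b) (by push_cast; linarith : (d : ℝ) = √2 * (-b : ℤ))
    have h6' : a = 0 := by omega
    have h8' : b = 0 := by omega
    subst h6' h7 h8' h9
    simp

section irr

variable (P : AddSubgroup lat) (hP : ∀ (γ : Gam) x, x ∈ P → γ • x ∈ P)

include hP

theorem scal_mem {x : lat} (hx : x ∈ P) {z : ℂ} (hz : IsEis z) :
    ∃ y ∈ P, ∀ i, (y : Pool.Agent.X225.Cr.V) i = z * (x : Pool.Agent.X225.Cr.V) i := by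
  obtain ⟨a, b, rfl⟩ := hz
  refine ⟨a • x + b • gW • x, add_mem (zsmul_mem hx a) (zsmul_mem (hP _ _ hx) b), fun i => ?_⟩
  have h1 : ((gW • x : lat) : Pool.Agent.X225.Cr.V) i = om * (x : Pool.Agent.X225.Cr.V) i := by
    fin_cases i <;> rfl
  have h2 : ((a • x + b • gW • x : lat) : Pool.Agent.X225.Cr.V) i =
      a • (x : Pool.Agent.X225.Cr.V) i + b • ((gW • x : lat) : Pool.Agent.X225.Cr.V) i := rfl
  rw [h2, h1]
  simp
  ring

theorem sL_mem {x : lat} (hx : x ∈ P) : sL x ∈ P := by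
  rw [sL_eq]
  exact sub_mem (hP _ _ hx) (hP _ _ (hP _ _ (hP _ _ hx)))

theorem exists_one {f : lat} (hf : f ∈ P)
    (h0 : (f : Pool.Agent.X225.Cr.V) 0 ≠ 0 ∨
      (f : Pool.Agent.X225.Cr.V) 1 ≠ (f : Pool.Agent.X225.Cr.V) 3) :
    ∃ m : ℤ, m ≠ 0 ∧ m • eL ∈ P := by
  obtain ⟨e0', e1', e2', e3'⟩ := mem_lat_iff.1 f.2
  set z := (f : Pool.Agent.X225.Cr.V) 0 with hz
  set w := (f : Pool.Agent.X225.Cr.V) 1 - (f : Pool.Agent.X225.Cr.V) 3 with hw
  have hwE : IsEis w := e1'.sub e3'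
  have hzE : IsEis (2 * z) := by rw [two_mul]; exact e0'.add e0'
  -- `f' = f + C f`
  have h1 : f + gC • f ∈ P := add_mem hf (hP _ _ hf)
  have h10 : ((f + gC • f : lat) : Pool.Agent.X225.Cr.V) 0 = 2 * z := by
    change (f : Pool.Agent.X225.Cr.V) 0 + (f : Pool.Agent.X225.Cr.V) 0 = _
    rw [two_mul]
  have h11 : ((f + gC • f : lat) : Pool.Agent.X225.Cr.V) 1 = w := by
    change (f : Pool.Agent.X225.Cr.V) 1 + -(f : Pool.Agent.X225.Cr.V) 3 = _
    rw [hw]; ring
  have h12 : ((f + gC • f : lat) : Pool.Agent.X225.Cr.V) 2 = 0 := by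
    change (f : Pool.Agent.X225.Cr.V) 2 + -(f : Pool.Agent.X225.Cr.V) 2 = _
    ring
  have h13 : ((f + gC • f : lat) : Pool.Agent.X225.Cr.V) 3 = -w := by
    change (f : Pool.Agent.X225.Cr.V) 3 + -(f : Pool.Agent.X225.Cr.V) 1 = _
    rw [hw]; ring
  have h2 := sL_mem P hP h1
  have h20 : ((sL (f + gC • f) : lat) : Pool.Agent.X225.Cr.V) 0 = 2 * w := by
    change ((f + gC • f : lat) : Pool.Agent.X225.Cr.V) 1 -
      ((f + gC • f : lat) : Pool.Agent.X225.Cr.V) 3 = _
    rw [h11, h13]; ring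
  have h21 : ((sL (f + gC • f) : lat) : Pool.Agent.X225.Cr.V) 1 = 2 * z := by
    change ((f + gC • f : lat) : Pool.Agent.X225.Cr.V) 0 +
      ((f + gC • f : lat) : Pool.Agent.X225.Cr.V) 2 = _
    rw [h10, h12]; ring
  have h22 : ((sL (f + gC • f) : lat) : Pool.Agent.X225.Cr.V) 2 = 0 := by
    change ((f + gC • f : lat) : Pool.Agent.X225.Cr.V) 1 +
      ((f + gC • f : lat) : Pool.Agent.X225.Cr.V) 3 = _
    rw [h11, h13]; ring
  have h23 : ((sL (f + gC • f) : lat) : Pool.Agent.X225.Cr.V) 3 = -(2 * z) := by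
    change ((f + gC • f : lat) : Pool.Agent.X225.Cr.V) 2 -
      ((f + gC • f : lat) : Pool.Agent.X225.Cr.V) 0 = _
    rw [h10, h12]; ring
  obtain ⟨y1, hy1, hy1'⟩ := scal_mem P hP h1 hzE
  obtain ⟨y2, hy2, hy2'⟩ := scal_mem P hP h2 hwE
  have hh : IsEis (2 * z * (2 * z) - w * (2 * w)) := by
    refine (hzE.mul hzE).sub (hwE.mul ?_)
    rw [two_mul]
    exact hwE.add hwE
  obtain ⟨p, q, hpq⟩ := hh
  have hne : 2 * z * (2 * z) - w * (2 * w) ≠ 0 := by
    intro h
    have h3 : 2 * (z * z) = w * w := by linear_combination h / 2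
    obtain ⟨h4, h5⟩ := two_sq e0' hwE h3
    rcases h0 with h0 | h0
    · exact h0 h4
    · exact h0 (sub_eq_zero.1 h5)
  obtain ⟨y, hy, hy'⟩ := scal_mem P hP (sub_mem hy1 hy2)
    (z := conj (2 * z * (2 * z) - w * (2 * w))) (by rw [hpq]; exact IsEis.conj ⟨p, q, rfl⟩)
  have hns : Complex.normSq ((p : ℂ) + q * om) = ((p * p - p * q + q * q : ℤ) : ℝ) := by
    have h3 := sqrt3_sq
    rw [Complex.normSq_apply, re_eis, im_eis]
    push_cast
    linear_combination ((q : ℝ) * q / 4) * h3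
  refine ⟨p * p - p * q + q * q, ?_, ?_⟩
  · intro h
    rw [h, Int.cast_zero, Complex.normSq_eq_zero, ← hpq] at hns
    exact hne hns
  · have h5 : y = (p * p - p * q + q * q) • eL := by
      apply Subtype.ext
      have hc : ∀ i, ((y1 - y2 : lat) : Pool.Agent.X225.Cr.V) i =
          2 * z * ((f + gC • f : lat) : Pool.Agent.X225.Cr.V) i -
            w * ((sL (f + gC • f) : lat) : Pool.Agent.X225.Cr.V) i := by
        intro i
        rw [← hy1', ← hy2']
        rfl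
      have he : ∀ i, (((p * p - p * q + q * q) • eL : lat) : Pool.Agent.X225.Cr.V) i =
          ((p * p - p * q + q * q : ℤ) : ℂ) * e0 i := by
        intro i
        change (p * p - p * q + q * q) • (e0 i) = _
        rw [zsmul_eq_mul]
      have hcc : conj (2 * z * (2 * z) - w * (2 * w)) * (2 * z * (2 * z) - w * (2 * w)) =
          ((p * p - p * q + q * q : ℤ) : ℂ) := by
        rw [← Complex.normSq_eq_conj_mul_self, hpq, hns]
        push_cast
        rfl
      apply V_ext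
      · rw [hy', hc, he, h10, h20, ← hcc]
        simp [e0]
      · rw [hy', hc, he, h11, h21]
        simp [e0]
        right
        ring
      · rw [hy', hc, he, h12, h22]
        simp [e0]
      · rw [hy', hc, he, h13, h23]
        simp [e0]
        right
        ring
    rw [← h5]
    exact hy

theorem exists_multiple {f : lat} (hf : f ∈ P) (hf0 : f ≠ 0) :
    ∃ m : ℤ, m ≠ 0 ∧ ∀ x : lat, m • x ∈ P := by
  have h1 : ∃ m : ℤ, m ≠ 0 ∧ m • eL ∈ P := by
    by_cases h : (f : Pool.Agent.X225.Cr.V) 0 ≠ 0 ∨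
      (f : Pool.Agent.X225.Cr.V) 1 ≠ (f : Pool.Agent.X225.Cr.V) 3
    · exact exists_one P hP hf h
    · by_cases h' : ((gZ • f : lat) : Pool.Agent.X225.Cr.V) 0 ≠ 0 ∨
        ((gZ • f : lat) : Pool.Agent.X225.Cr.V) 1 ≠ ((gZ • f : lat) : Pool.Agent.X225.Cr.V) 3
      · exact exists_one P hP (hP _ _ hf) h'
      · exfalso
        push Not at h h'
        have h2 : -(f : Pool.Agent.X225.Cr.V) 3 = 0 := h'.1
        have h3 : (f : Pool.Agent.X225.Cr.V) 0 = (f : Pool.Agent.X225.Cr.V) 2 := h'.2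
        apply hf0
        apply Subtype.ext
        apply V_ext
        · exact h.1
        · rw [h.2, neg_eq_zero.1 h2]; rfl
        · rw [← h3, h.1]; rfl
        · exact neg_eq_zero.1 h2
  obtain ⟨m, hm, hme⟩ := h1
  refine ⟨m, hm, fun x => ?_⟩
  have hγz : ∀ (γ : Gam) (n : ℤ) (x : lat), n • γ • x = γ • (n • x) := fun γ n x =>
    (map_zsmul (DistribSMul.toAddMonoidHom lat γ) n x).symm
  induction x using lat_induction with
  | h0 => rw [smul_zero]; exact zero_mem _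
  | he => exact hme
  | hadd x y hx hy => rw [smul_add]; exact add_mem hx hy
  | hneg x hx => rw [smul_neg]; exact neg_mem hx
  | hW x hx => rw [hγz]; exact hP _ _ hx
  | hZ x hx => rw [hγz]; exact hP _ _ hx

end irr

theorem irreducible_grp : IsIrreducible grp := by
  intro N hN hconj
  by_cases hbot : N = ⊥
  · exact Or.inl hbot
  right
  obtain ⟨⟨n, hn⟩, hn1'⟩ := Subgroup.ne_bot_iff_exists_ne_one.1 hbot
  have hn1 : n ≠ 1 := fun h => hn1' (Subtype.ext h)
  let P : AddSubgroup lat :=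
    { carrier := {x | affHom ⟨x, 1⟩ ∈ N}
      zero_mem' := by
        have : (⟨0, 1⟩ : Aff lat Gam) = 1 := rfl
        change affHom ⟨0, 1⟩ ∈ N
        rw [this, map_one]
        exact one_mem N
      add_mem' := by
        intro x y hx hy
        have : (⟨x + y, 1⟩ : Aff lat Gam) = ⟨x, 1⟩ * ⟨y, 1⟩ := by ext1 <;> simp
        change affHom ⟨x + y, 1⟩ ∈ N
        rw [this, map_mul]
        exact mul_mem hx hy
      neg_mem' := by
        intro x hx
        have : (⟨-x, 1⟩ : Aff lat Gam) = (⟨x, 1⟩)⁻¹ := by ext1 <;> simp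
        change affHom ⟨-x, 1⟩ ∈ N
        rw [this, map_inv]
        exact inv_mem hx }
  have hP : ∀ (γ : Gam) x, x ∈ P → γ • x ∈ P := by
    intro γ x hx
    have h1 : (⟨γ • x, 1⟩ : Aff lat Gam) = ⟨0, γ⟩ * ⟨x, 1⟩ * (⟨0, γ⟩)⁻¹ := by
      ext1 <;> simp
    change affHom ⟨γ • x, 1⟩ ∈ N
    rw [h1, map_mul, map_mul, map_inv]
    exact hconj _ ⟨_, rfl⟩ _ hx
  obtain ⟨x, rfl⟩ := mem_translations.1 (hN hn)
  have hx0 : x ≠ 0 := by
    rintro rfl
    apply hn1
    exact affHom.map_one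
  obtain ⟨m, hm, hmP⟩ := exists_multiple P hP (f := x) hn hx0
  intro t ht
  obtain ⟨y, rfl⟩ := mem_translations.1 ht
  refine ⟨m.natAbs, Int.natAbs_ne_zero.2 hm, ?_⟩
  rw [← map_pow, pow_t]
  change m.natAbs • y ∈ P
  rw [← natCast_zsmul, Int.natCast_natAbs]
  rcases abs_choice m with h | h
  · rw [h]; exact hmP y
  · rw [h, neg_smul]; exact neg_mem (hmP y)

/-! ### Transport to `ℝ⁸` -/

section transport

variable {V W : Type} [NormedAddCommGroup V] [NormedAddCommGroup W] [NormedSpace ℝ V]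
  [NormedSpace ℝ W] (e : V ≃ₗᵢ[ℝ] W)

/-- conjugation with an isometry -/
def cj : (V ≃ᵢ V) ≃* (W ≃ᵢ W) where
  toFun g := (e.symm.toIsometryEquiv.trans g).trans e.toIsometryEquiv
  invFun g := (e.toIsometryEquiv.trans g).trans e.symm.toIsometryEquiv
  left_inv g := by
    ext1 x
    change e.symm (e (g (e.symm (e x)))) = g x
    simp
  right_inv g := by
    ext1 x
    change e (e.symm (g (e (e.symm x)))) = g x
    simp
  map_mul' g h := by
    ext1 x
    change e (g (h (e.symm x))) = e (g (e.symm (e (h (e.symm x)))))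
    simp

theorem cj_apply (g : V ≃ᵢ V) (w : W) : cj e g w = e (g (e.symm w)) := rfl

theorem cj_symm_apply (g : W ≃ᵢ W) (v : V) : (cj e).symm g v = e.symm (g (e v)) := rfl

/-- the conjugated subgroup -/
abbrev cjG (G : Subgroup (V ≃ᵢ V)) : Subgroup (W ≃ᵢ W) := G.map (cj e).toMonoidHom

theorem mem_cjG {G : Subgroup (V ≃ᵢ V)} {g : W ≃ᵢ W} : g ∈ cjG e G ↔ (cj e).symm g ∈ G :=
  Subgroup.mem_map_equiv

theorem cj_mem_cjG {G : Subgroup (V ≃ᵢ V)} {g : V ≃ᵢ V} : cj e g ∈ cjG e G ↔ g ∈ G := by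
  rw [mem_cjG, MulEquiv.symm_apply_apply]

theorem discrete_cj {G : Subgroup (V ≃ᵢ V)} (h : IsDiscrete G) : IsDiscrete (cjG e G) := by
  intro r
  refine ((h r).image (cj e)).subset ?_
  rintro g ⟨hg, hr⟩
  refine ⟨(cj e).symm g, ⟨(mem_cjG e).1 hg, ?_⟩, (cj e).apply_symm_apply g⟩
  rw [cj_symm_apply, map_zero, LinearIsometryEquiv.norm_map]
  exact hr

theorem cocompact_cj {G : Subgroup (V ≃ᵢ V)} (h : IsCocompact G) : IsCocompact (cjG e G) := by
  obtain ⟨C, hC, h⟩ := h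
  refine ⟨e '' C, hC.image e.continuous, fun x => ?_⟩
  obtain ⟨g, hg, hx⟩ := h (e.symm x)
  exact ⟨cj e g, (cj_mem_cjG e).2 hg, _, hx, rfl⟩

theorem translations_cj {G : Subgroup (V ≃ᵢ V)} {g : W ≃ᵢ W} :
    g ∈ translations (cjG e G) ↔ (cj e).symm g ∈ translations G := by
  constructor
  · rintro ⟨hg, v, hv⟩
    refine ⟨(mem_cjG e).1 hg, e.symm v, fun x => ?_⟩
    rw [cj_symm_apply, hv, map_add, e.symm_apply_apply]
  · rintro ⟨hg, v, hv⟩
    refine ⟨(mem_cjG e).2 hg, e v, fun x => ?_⟩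
    have h := hv (e.symm x)
    rw [cj_symm_apply, e.apply_symm_apply] at h
    have h2 := congrArg e h
    rwa [e.apply_symm_apply, map_add, e.apply_symm_apply] at h2

theorem split_cj {G : Subgroup (V ≃ᵢ V)} (h : IsSplit G) : IsSplit (cjG e G) := by
  obtain ⟨H, h1, h2, h3⟩ := h
  refine ⟨cjG e H, Subgroup.map_mono h1, ?_, fun g hg => ?_⟩
  · rw [eq_bot_iff]
    rintro g ⟨hg, hg'⟩
    have h4 : (cj e).symm g ∈ H ⊓ translations G := ⟨(mem_cjG e).1 hg, (translations_cj e).1 hg'⟩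
    rw [h2, Subgroup.mem_bot] at h4
    rw [Subgroup.mem_bot, ← (cj e).apply_symm_apply g, h4, map_one]
  · obtain ⟨t, ht, h, hh, hth⟩ := h3 _ ((mem_cjG e).1 hg)
    refine ⟨cj e t, (translations_cj e).2 (by rwa [MulEquiv.symm_apply_apply]), cj e h,
      (cj_mem_cjG e).2 hh, ?_⟩
    rw [← map_mul, ← hth, MulEquiv.apply_symm_apply]

theorem irreducible_cj {G : Subgroup (V ≃ᵢ V)} (h : IsIrreducible G) :
    IsIrreducible (cjG e G) := by
  intro N hN hconj
  have hm : ∀ g, g ∈ cjG e.symm N ↔ cj e g ∈ N := fun g => mem_cjG e.symm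
  have h1 := h (cjG e.symm N) (fun n hn => ?_) (fun g hg n hn => ?_)
  · rcases h1 with h1 | h1
    · left
      rw [eq_bot_iff]
      intro n hn
      have h2 : (cj e).symm n ∈ cjG e.symm N := by
        rw [hm, MulEquiv.apply_symm_apply]
        exact hn
      rw [h1, Subgroup.mem_bot] at h2
      rw [Subgroup.mem_bot, ← (cj e).apply_symm_apply n, h2, map_one]
    · right
      intro t ht
      obtain ⟨m, hm0, hm1⟩ := h1 _ ((translations_cj e).1 ht)
      refine ⟨m, hm0, ?_⟩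
      rw [hm, map_pow, MulEquiv.apply_symm_apply] at hm1
      exact hm1
  · have h2 := (translations_cj e).1 (hN ((hm n).1 hn))
    rwa [MulEquiv.symm_apply_apply] at h2
  · rw [hm, map_mul, map_mul, map_inv]
    exact hconj _ ((cj_mem_cjG e).2 hg) _ ((hm n).1 hn)

end transport

theorem homogeneous_of_equiv {G H : Type} [Group G] [Group H] (f : G ≃* H)
    (h : IsHomogeneous H) : IsHomogeneous G := by
  intro k hk u v huv
  obtain ⟨σ, hσ⟩ := h k hk (fun i => f (u i)) (fun i => f (v i)) (fun φ => by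
    have h1 := StrongHomClass.realize_formula (grpEquiv f) φ (v := u)
    have h2 := StrongHomClass.realize_formula (grpEquiv f) φ (v := v)
    exact h1.trans ((huv φ).trans h2.symm))
  refine ⟨(f.trans σ).trans f.symm, fun i => ?_⟩
  change f.symm (σ (f (u i))) = v i
  rw [hσ, f.symm_apply_apply]

/-- **There is an irreducible split crystallographic group of dimension `8` that is not
homogeneous.** -/
theorem result : ∃ G : Subgroup (EuclideanSpace ℝ (Fin 8) ≃ᵢ EuclideanSpace ℝ (Fin 8)),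
    IsDiscrete G ∧ IsCocompact G ∧ IsSplit G ∧ IsIrreducible G ∧ ¬ IsHomogeneous G := by
  have hdim : Module.finrank ℝ Pool.Agent.X225.Cr.V = 8 := by
    rw [finrank_real_of_complex]
    simp
  let e : Pool.Agent.X225.Cr.V ≃ₗᵢ[ℝ] EuclideanSpace ℝ (Fin 8) :=
    ((stdOrthonormalBasis ℝ Pool.Agent.X225.Cr.V).reindex (finCongr hdim)).repr
  refine ⟨cjG e grp, discrete_cj e discrete_grp, cocompact_cj e cocompact_grp,
    split_cj e split_grp, irreducible_cj e irreducible_grp, fun h => ?_⟩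
  let f : Aff lat Gam ≃* cjG e grp :=
    (MonoidHom.ofInjective affHom_injective).trans (grp.equivMapOfInjective (cj e).toMonoidHom
      (cj e).injective)
  obtain ⟨u, v, h1, h2⟩ := not_homogeneous
  exact h2 (homogeneous_of_equiv f h 4 (by norm_num) u v h1)

end Pool.Agent.Results.MP_881be3_lc.SplitCounterexample
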